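import Pool.Agent.LibFG33.Defs

/-!
GOE statistics of the spectrum of almost every metric of negative curvature in mesoscopic windows,
with short averages: the definition.
-/

open MeasureTheory Set Filter Topology BGS
open scoped ContDiff

namespace FG35

open FG33

/-- The linear statistics of `m` in windows of length `1 / L (T)` around a random `τ`, uniformly
distributed in `[T, T + H (T)]`, converge for `T → ∞` in distribution, and with all moments, to the
normal distribution with mean zero and the variance of the GOE. -/
def GOEWindows {Γ : Type} [Group Γ] [MulAction Γ Pl] {D : Set Pl} (m : Mt Γ D) (L H : ℝ → ℝ) :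
    Prop :=
  ∀ a : ℝ → ℂ, IsAmp a →
    (∀ F : ℝ → ℝ, Continuous F → (∃ B, ∀ y, |F y| ≤ B) →
      Tendsto (fun T : ℝ => (1 / H T) * ∫ τ in T..T + H T, F (stat m a (L T) τ)) atTop
        (𝓝 (∫ y, F y ∂(ProbabilityTheory.gaussianReal 0 (varGOE a))))) ∧
    ∀ r : ℕ, Tendsto (fun T : ℝ => (1 / H T) * ∫ τ in T..T + H T, stat m a (L T) τ ^ r) atTop
        (𝓝 (∫ y, y ^ r ∂(ProbabilityTheory.gaussianReal 0 (varGOE a))))

end FG35
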